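import Mathlib

set_option autoImplicit false

/-!
Mertens upper bounds:
`sum_{p <= n} log p / p <= log n + log 4` and `sum_{p <= n} 1 / p <= log (log n) + C`.
-/

namespace Pool.Agent.Common_Mertens

open Finset Real Nat

lemma prod_dvd_factorial (n : ℕ) : ∏ p ∈ Nat.primesLE n, p ^ (n / p) ∣ n.factorial := by
  apply Finset.prod_dvd_of_isRelPrime
  · intro p hp q hq hpq
    have hp' : p.Prime := Nat.prime_of_mem_primesLE (Finset.mem_coe.1 hp)
    have hq' : q.Prime := Nat.prime_of_mem_primesLE (Finset.mem_coe.1 hq)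
    simp only [Function.onFun]
    rw [← Nat.coprime_iff_isRelPrime]
    exact Nat.Coprime.pow _ _ ((Nat.coprime_primes hp' hq').2 hpq)
  · intro p hp
    have hp2 : p ≤ n ∧ p.Prime := Nat.mem_primesLE.1 hp
    have hp' : p.Prime := hp2.2
    have hpn : p ≤ n := hp2.1
    have hn : 0 < n := lt_of_lt_of_le hp'.pos hpn
    rw [hp'.pow_dvd_iff_le_factorization (Nat.factorial_ne_zero n),
      Nat.factorization_factorial hp' (b := n + 1 + Nat.log p n) (by omega)]
    have h1 : n / p = n / p ^ 1 := by rw [pow_one]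
    conv_lhs => rw [h1]
    apply Finset.single_le_sum (f := fun i => n / p ^ i) (fun _ _ => Nat.zero_le _)
    rw [Finset.mem_Ico]
    omega

/-- Mertens first theorem, upper bound. -/
theorem sum_log_div_le {n : ℕ} (hn : 1 ≤ n) :
    ∑ p ∈ Nat.primesLE n, Real.log p / p ≤ Real.log n + Real.log 4 := by
  have hn0 : (0:ℝ) < n := by exact_mod_cast hn
  have hprime : ∀ p ∈ Nat.primesLE n, p.Prime := fun p hp => Nat.prime_of_mem_primesLE hp
  have h1 : (∏ p ∈ Nat.primesLE n, p ^ (n / p)) ≤ n ^ n :=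
    (Nat.le_of_dvd (Nat.factorial_pos n) (prod_dvd_factorial n)).trans (Nat.factorial_le_pow n)
  have h2 : Real.log ((∏ p ∈ Nat.primesLE n, p ^ (n / p) : ℕ) : ℝ) ≤ n * Real.log n := by
    rw [← Real.log_pow]
    apply Real.log_le_log
    · have : 0 < ∏ p ∈ Nat.primesLE n, p ^ (n / p) :=
        Finset.prod_pos (fun p hp => pow_pos (hprime p hp).pos _)
      exact_mod_cast this
    · exact_mod_cast h1
  have h3 : Real.log ((∏ p ∈ Nat.primesLE n, p ^ (n / p) : ℕ) : ℝ)
      = ∑ p ∈ Nat.primesLE n, ((n / p : ℕ) : ℝ) * Real.log p := by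
    rw [Nat.cast_prod, Real.log_prod]
    · apply Finset.sum_congr rfl
      intro p _
      rw [Nat.cast_pow, Real.log_pow]
    · intro p hp
      have := (hprime p hp).pos
      positivity
  have h4 : ∀ p ∈ Nat.primesLE n, (n:ℝ) * (Real.log p / p) - Real.log p
      ≤ ((n / p : ℕ) : ℝ) * Real.log p := by
    intro p hp
    have hp1 := (hprime p hp).one_lt
    have hlog : 0 ≤ Real.log p := Real.log_nonneg (by exact_mod_cast hp1.le)
    have h5 : (n:ℝ) / p - 1 ≤ ((n / p : ℕ) : ℝ) := by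
      have hp0 : (0:ℝ) < p := by exact_mod_cast (hprime p hp).pos
      have := Nat.lt_div_mul_add (a := n) (b := p) (hprime p hp).pos
      have h6 : (n:ℝ) < ((n / p : ℕ) : ℝ) * p + p := by exact_mod_cast this
      rw [sub_le_iff_le_add, div_le_iff₀ hp0]
      linarith
    calc (n:ℝ) * (Real.log p / p) - Real.log p = ((n:ℝ) / p - 1) * Real.log p := by ring
      _ ≤ _ := mul_le_mul_of_nonneg_right h5 hlog
  have h5 := Finset.sum_le_sum h4
  rw [Finset.sum_sub_distrib, ← Finset.mul_sum] at h5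
  have h6 : ∑ p ∈ Nat.primesLE n, Real.log p ≤ Real.log 4 * n := by
    rw [← Chebyshev.theta_eq_sum_primesLE_log]
    exact Chebyshev.theta_le_log4_mul_x hn0.le
  have h7 : (n:ℝ) * ∑ p ∈ Nat.primesLE n, Real.log p / p ≤ n * (Real.log n + Real.log 4) := by
    rw [h3] at h2
    linarith
  exact le_of_mul_le_mul_left h7 hn0

lemma sum_primesLE_succ (f : ℕ → ℝ) (n : ℕ) : ∑ p ∈ Nat.primesLE (n+1), f p
    = ∑ p ∈ Nat.primesLE n, f p + (if (n+1).Prime then f (n+1) else 0) := by
  rw [Nat.primesLE_eq_filter_range, Nat.primesLE_eq_filter_range, Finset.range_add_one (n := n+1),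
    Finset.filter_insert]
  split_ifs with h
  · rw [Finset.sum_insert (by simp), add_comm]
  · rw [add_zero]

/-- Mertens second theorem, upper bound (summation by parts form). -/
theorem sum_inv_le_aux (n : ℕ) (hn : 1 ≤ n) :
    ∑ p ∈ Nat.primesLE n, (1:ℝ) / p ≤
      (∑ p ∈ Nat.primesLE n, Real.log p / p) / Real.log (n+1)
        + Real.log (Real.log (n+1)) - Real.log (Real.log 2)
        + Real.log 4 * (1 / Real.log 2 - 1 / Real.log (n+1)) := by
  induction n, hn using Nat.le_induction with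
  | base =>
    have : Nat.primesLE 1 = ∅ := by decide
    rw [this]
    norm_num
  | succ n hn ih =>
    have hS := sum_log_div_le (n := n+1) (by omega)
    rw [sum_primesLE_succ]
    obtain ⟨S, hSdef⟩ : ∃ S, S = ∑ p ∈ Nat.primesLE (n+1), Real.log p / p := ⟨_, rfl⟩
    have hS2 : S = ∑ p ∈ Nat.primesLE n, Real.log p / p
        + (if (n+1).Prime then Real.log ((n+1 : ℕ) : ℝ) / ((n+1 : ℕ) : ℝ) else 0) := by
      rw [hSdef, sum_primesLE_succ]
    have ha : (2:ℝ) ≤ (n:ℝ) + 1 := by
      have : (1:ℝ) ≤ n := by exact_mod_cast hn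
      linarith
    obtain ⟨a, hadef⟩ : ∃ a, a = Real.log ((n:ℝ) + 1) := ⟨_, rfl⟩
    obtain ⟨b, hbdef⟩ : ∃ b, b = Real.log ((n:ℝ) + 1 + 1) := ⟨_, rfl⟩
    have ha0 : 0 < a := by rw [hadef]; exact Real.log_pos (by linarith)
    have hab : a ≤ b := by rw [hadef, hbdef]; exact Real.log_le_log (by linarith) (by linarith)
    have hb0 : 0 < b := by linarith
    have h4 : 0 < Real.log 4 := Real.log_pos (by norm_num)
    push_cast at hS hS2 ⊢
    rw [← hSdef]
    rw [← hSdef, ← hadef] at hS
    rw [← hadef] at hS2 ih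
    rw [← hbdef]
    have e1 : (if (n+1).Prime then (1:ℝ) / ((n:ℝ)+1) else 0) =
        (if (n+1).Prime then a / ((n:ℝ)+1) else 0) / a := by
      split_ifs
      · field_simp
      · simp
    have e2 : ∑ p ∈ Nat.primesLE n, Real.log p / p
        = S - (if (n+1).Prime then a / ((n:ℝ)+1) else 0) := by linarith
    rw [e2] at ih
    rw [e1]
    have h5 : 1 - a / b ≤ Real.log b - Real.log a := by
      have h6 : Real.log (a / b) ≤ a / b - 1 := Real.log_le_sub_one_of_pos (by positivity)
      rw [Real.log_div ha0.ne' hb0.ne'] at h6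
      linarith
    have h7 : 0 ≤ 1 / a - 1 / b := by
      have := one_div_le_one_div_of_le ha0 hab
      linarith
    have h8 : S * (1 / a - 1 / b) ≤ (a + Real.log 4) * (1 / a - 1 / b) :=
      mul_le_mul_of_nonneg_right hS h7
    have h9 : a * (1 / a - 1 / b) = 1 - a / b := by field_simp
    have h10 : (S - (if (n+1).Prime then a / ((n:ℝ)+1) else 0)) / a
        = S / a - (if (n+1).Prime then a / ((n:ℝ)+1) else 0) / a := sub_div _ _ _
    rw [h10] at ih
    have h11 : S / a = S * (1 / a) := by ring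
    have h12 : S / b = S * (1 / b) := by ring
    nlinarith

/-- Mertens second theorem, upper bound. -/
theorem sum_inv_le : ∃ C : ℝ, ∀ n : ℕ, 1 ≤ n →
    ∑ p ∈ Nat.primesLE n, (1:ℝ) / p ≤ Real.log (Real.log (n+1)) + C := by
  refine ⟨1 + Real.log 4 / Real.log 2 - Real.log (Real.log 2) , fun n hn => ?_⟩
  have h := sum_inv_le_aux n hn
  have hS := sum_log_div_le hn
  have hn1 : (1:ℝ) ≤ n := by exact_mod_cast hn
  have hb : 0 < Real.log ((n:ℝ)+1) := Real.log_pos (by linarith)
  have hmono : Real.log (n:ℝ) ≤ Real.log ((n:ℝ)+1) := Real.log_le_log (by linarith) (by linarith)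
  have h4 : 0 < Real.log 4 := Real.log_pos (by norm_num)
  have h1 : (∑ p ∈ Nat.primesLE n, Real.log p / p) / Real.log ((n:ℝ)+1)
      ≤ 1 + Real.log 4 / Real.log ((n:ℝ)+1) := by
    rw [div_le_iff₀ hb, add_mul, div_mul_cancel₀ _ hb.ne']
    linarith
  have h2 : Real.log 4 * (1 / Real.log 2 - 1 / Real.log ((n:ℝ)+1))
      = Real.log 4 / Real.log 2 - Real.log 4 / Real.log ((n:ℝ)+1) := by ring
  linarith

end Pool.Agent.Common_Mertens
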